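import Pool.Agent.U79.MO.ASYM

/-!
# Project GX (helper79): all exponential moments of the corank are bounded over the class

Statements of the parts.
-/

set_option autoImplicit false
set_option linter.unusedVariables false

open scoped Classical

namespace Pool.Agent.U79.GX

open Finset hiding ext
open Filter
open Pool.Agent.Y703.CX (sm la jj XX eL zz kk S_SIE)
open Pool.Agent.Y703.CQ (nr sg prs HB S_EQ ext S_BIL Sml)
open Pool.Agent.U115.GD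
open Pool.Agent.U79.MO (SolA nk)

/-- the constant -/
noncomputable def Cr (r : ℕ) : ℝ := (2 ^ r + 1) * 2 ^ (r ^ 2)

/-- GX-LA: the `r`-th moment of the number of solutions of a random symmetric completion. -/
def S_LA : Prop := ∀ (r : ℕ) (U J : Type) [Fintype U] [Fintype J] [LinearOrder J]
    (U1 : Finset U) (J1 : Finset J) (A : U → U → ZMod 2) (B : U → J → ZMod 2)
    (C : J → U → ZMod 2) (f : U → ZMod 2) (g : J → ZMod 2),
  ((∃ l, l ∉ J1) → (∀ u ∈ U1, ∀ k ∈ J1, B u k = C k u) →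
    (∀ w : U → ZMod 2, (∀ u, u ∉ U1 → w u = 0) → (∃ u, w u ≠ 0) →
      ∃ k ∈ J1, ∑ u, w u * C k u ≠ 0) →
    ∑ α : prs J1 → ZMod 2, ((univ.filter fun z : (U → ZMod 2) × (J → ZMod 2) =>
      SolA U1 J1 A B C (ext α) f g z).card : ℝ) ^ r ≤ Cr r * 2 ^ (prs J1).card) ∧
  ∑ α : prs J1 → ZMod 2, ((univ.filter fun z : (U → ZMod 2) × (J → ZMod 2) =>
      SolA U1 J1 A B C (ext α) f g z).card : ℝ) ^ r ≤
    (2 ^ (Fintype.card U + 1)) ^ r * (Cr r * 2 ^ (prs J1).card)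

/-- the weight of a set with the small primes `S₀` and the large primes `S₁` -/
noncomputable def wt (G : Cfg) (r : ℕ) (S₀ S₁ : Finset ℕ) : ℝ :=
  if Nd G S₀ S₁ ∧ ∃ p ∈ S₁, ¬ Hc G p then 1 else (2 ^ (S₀.card + 1)) ^ r

/-- GX-BOX: the `r`-th moment in a box (template `Pool/Agent/U79/MO/BOXM.lean`, theorem `boxm`, with
`z` replaced by `r`-tuples of pairs; the labels `β` with `LN G S₀ J1 β` and an `i ∉ J1` by the first
part of `S_LA`, the others by the second part). -/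
def S_BOX : Prop := S_EQ → S_LA → ∀ (G : Cfg) (f : ℕ → ZMod 2) (r : ℕ) (ι : Type) [Fintype ι]
  [LinearOrder ι] (J1 : Finset ι) (C : ι → Finset ℕ) (X : ι → ℕ) (κ : ℝ) (S₀ : Finset ℕ),
  0 ≤ κ → (∀ i, (C i).card ≤ X i) → HB J1 C X κ → (∀ u ∈ S₀, u.Prime ∧ u ≠ 2) →
  (∀ i, ∀ p ∈ C i, p.Prime ∧ p ≠ 2 ∧ p ∉ S₀ ∧ (i ∈ J1 ↔ Hc G p)) →
  (∀ i l, i ≠ l → Disjoint (C i) (C l)) →
  ∑ p ∈ Fintype.piFinset C, (nk G f (S₀ ∪ univ.image p) : ℝ) ^ r ≤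
    Cr r * ∑ p ∈ Fintype.piFinset C, wt G r S₀ (univ.image p) +
    2 ^ ((2 * S₀.card + 1) * Fintype.card ι + (prs J1).card + r * (S₀.card + Fintype.card ι)) *
      (κ * ∏ j, (X j : ℝ))

/-- the sets which fit into boxes -/
noncomputable def RE (G : Cfg) (X z H k : ℕ) : Finset (Finset ℕ) :=
  (SS G X).filter fun S => Set.InjOn (jj H) (la z S : Set ℕ) ∧ S.card ≤ k ∧
    (∏ p ∈ sm z S, p) * ∏ p ∈ la z S, XX H (jj H p) ≤ X

/-- the sum over the boxes -/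
def KEYC : Prop := ∃ C : ℝ, 1 ≤ C ∧
  ∀ (G : Cfg) (f : ℕ → ZMod 2) (r X z H k N : ℕ) (κ : ℝ), Ok G → 1 ≤ X → 1 ≤ H → 1 ≤ z →
  0 ≤ κ → C ≤ κ ^ 12 * z → (H : ℝ) * Real.log X < N →
  ∑ S ∈ RE G X z H k, (nk G f S : ℝ) ^ r ≤
    Cr r * ∑ S ∈ RE G X z H k, wt G r (sm z S) (la z S) +
    (((G.Q : ℝ) + 1) * (N + 1)) ^ k * (2 ^ ((r + 5) * k ^ 2) * κ) * (X * (1 + Real.log X))

/-- GX-KEY (template `Pool/Agent/U79/MO/KEYM.lean`, theorems `per_keyM` and `keym`; first copy `KP`,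
`rr_iff`, `rr_facts`, `key_bij` of `Pool/Agent/U295/GD/KEY.lean` for `RE` instead of `RR`, i.e. without
the fields `few` and `ine`). -/
def S_KEY : Prop := S_BIL → S_EQ → S_LA → S_BOX → KEYC

/-- GX-ASY: the asymptotic analysis, with `H = ⌈exp (h * eL X)⌉` and `k = ⌈K * eL X⌉` for large `h`,
`K` (template `Pool/Agent/U79/MO/ASYM.lean`). -/
def S_ASY : Prop := KEYC → CntP → S_SIE → S_HAL → S_BAD → S_FEW → S_MER → S_CHE → S_DA → S_LOW →
  ∀ (G : Cfg) (f : ℕ → ZMod 2) (r : ℕ), Ok G → ∃ C : ℝ, 0 ≤ C ∧ ∀ᶠ X : ℕ in atTop,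
    ∑ S ∈ SS G X, (nk G f S : ℝ) ^ r ≤ C * ((SS G X).card : ℝ)

end Pool.Agent.U79.GX
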