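import Pool.Agent.U79.MO.MQ2
import Pool.Agent.U79.GX.Stm

/-!
# Project GX (helper79): functions of exponential growth of the corank
-/

set_option autoImplicit false

open scoped Classical
open Finset Filter

namespace Pool.Agent.U79.GX

open Pool.Agent.U115.GD
open Pool.Agent.U115.GE (Class cork)
open Pool.Agent.U79.MO (mean mean_fiber mean_mono AX AX_card CX kd nk pow_kd_le law_AX kd_iff
  sum_eq_of_card ck_succ)

/-! ### the abstract argument -/

theorem mean_phiE (A : Finset ℕ) (g : ℕ → ℕ) (φ : ℕ → ℝ) {B : ℝ} {m : ℕ}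
    (hφ : ∀ k : ℕ, |φ k| ≤ B * 2 ^ (m * k)) (hB : 0 ≤ B) (K : ℕ) :
    |(mean A fun D => φ (g D)) -
      ∑ k ∈ range K, φ k * (((A.filter fun D => g D = k).card : ℝ) / (A.card : ℝ))| ≤
      B * (mean A fun D => (2 : ℝ) ^ ((m + 1) * g D)) / 2 ^ K := by
  have hK' : (0 : ℝ) < 2 ^ K := by positivity
  rw [mean_fiber]
  unfold mean
  rw [← sub_div, ← Finset.sum_filter_add_sum_filter_not A (fun D => g D < K), add_sub_cancel_left,
    abs_div, abs_of_nonneg (Nat.cast_nonneg A.card : (0 : ℝ) ≤ (A.card : ℝ)), ← mul_div_assoc,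
    div_div, mul_comm (A.card : ℝ), ← div_div]
  refine div_le_div_of_nonneg_right ?_ (Nat.cast_nonneg _)
  refine (Finset.abs_sum_le_sum_abs _ _).trans ?_
  rw [Finset.mul_sum, Finset.sum_div]
  calc ∑ D ∈ A.filter (fun D => ¬ g D < K), |φ (g D)| ≤
      ∑ D ∈ A.filter (fun D => ¬ g D < K), B * (2 : ℝ) ^ ((m + 1) * g D) / 2 ^ K := by
        refine Finset.sum_le_sum fun D hD => ?_
        have h1 := not_lt.1 (Finset.mem_filter.1 hD).2
        have h2 : (2 : ℝ) ^ K ≤ 2 ^ g D := pow_le_pow_right₀ (by norm_num) h1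
        refine (hφ (g D)).trans ?_
        rw [le_div_iff₀ hK', add_mul, one_mul, pow_add, ← mul_assoc]
        exact mul_le_mul_of_nonneg_left h2 (by positivity)
    _ ≤ _ := Finset.sum_le_sum_of_subset_of_nonneg (Finset.filter_subset _ _)
        fun _ _ _ => by positivity

/-- the mean of a function of exponential growth -/
theorem phi_tendstoE {A : ℕ → Finset ℕ} {g : ℕ → ℕ} {c : ℕ → ℝ}
    (hlaw : ∀ k, Tendsto (fun X => (((A X).filter fun D => g D = k).card : ℝ) / ((A X).card : ℝ))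
      atTop (nhds (c k)))
    (hmom : ∀ m : ℕ, ∃ C : ℝ, 0 ≤ C ∧ ∀ᶠ X in atTop, (mean (A X) fun D => (2 : ℝ) ^ (m * g D)) ≤ C)
    {φ : ℕ → ℝ} {B : ℝ} {m : ℕ} (hφ : ∀ k : ℕ, |φ k| ≤ B * 2 ^ (m * k)) :
    (Summable fun k : ℕ => φ k * c k) ∧
      Tendsto (fun X => mean (A X) fun D => φ (g D)) atTop (nhds (∑' k : ℕ, φ k * c k)) := by
  have hB : 0 ≤ B := by
    have h := (abs_nonneg _).trans (hφ 0)
    simpa using h
  have hc : ∀ k, 0 ≤ c k := fun k => ge_of_tendsto' (hlaw k) fun X => by positivity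
  have hlim : ∀ (ψ : ℕ → ℝ) (K : ℕ), Tendsto (fun X => ∑ k ∈ range K, ψ k *
      ((((A X).filter fun D => g D = k).card : ℝ) / ((A X).card : ℝ))) atTop
      (nhds (∑ k ∈ range K, ψ k * c k)) := fun ψ K =>
    tendsto_finsetSum _ fun k _ => (hlaw k).const_mul _
  have hs0 : Summable fun k : ℕ => (2 : ℝ) ^ (m * k) * c k := by
    obtain ⟨C, hC0, hC⟩ := hmom m
    refine summable_of_sum_range_le (c := C) (fun k => mul_nonneg (by positivity) (hc k))
      fun K => ?_
    refine le_of_tendsto (hlim _ K) ?_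
    filter_upwards [hC] with X hX
    refine le_trans ?_ hX
    rw [mean_fiber (A X) g (fun k => (2 : ℝ) ^ (m * k)) K]
    unfold mean
    refine div_le_div_of_nonneg_right ?_ (Nat.cast_nonneg _)
    exact Finset.sum_le_sum_of_subset_of_nonneg (Finset.filter_subset _ _)
      fun _ _ _ => by positivity
  have hsum : Summable fun k : ℕ => φ k * c k := by
    refine Summable.of_norm_bounded (hs0.mul_left B) fun k => ?_
    rw [Real.norm_eq_abs, abs_mul, abs_of_nonneg (hc _), ← mul_assoc]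
    exact mul_le_mul_of_nonneg_right (hφ k) (hc _)
  refine ⟨hsum, ?_⟩
  obtain ⟨C', hC0', hC'⟩ := hmom (m + 1)
  have hS := hsum.hasSum.tendsto_sum_nat
  rw [Metric.tendsto_nhds]
  intro ε hε
  obtain ⟨K, hK1, hK2⟩ : ∃ K : ℕ,
      dist (∑ k ∈ range K, φ k * c k) (∑' k : ℕ, φ k * c k) < ε / 4 ∧
      B * C' / 2 ^ K < ε / 4 := by
    have h1 := (Metric.tendsto_nhds.1 hS) (ε / 4) (by linarith)
    have h2 : ∀ᶠ K : ℕ in atTop, B * C' / (2 : ℝ) ^ K < ε / 4 := by
      have h3 : Tendsto (fun K : ℕ => B * C' / (2 : ℝ) ^ K) atTop (nhds 0) :=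
        tendsto_const_nhds.div_atTop (tendsto_pow_atTop_atTop_of_one_lt (by norm_num))
      exact h3.eventually (gt_mem_nhds (by linarith))
    exact (h1.and h2).exists
  have h1 := (Metric.tendsto_nhds.1 (hlim φ K)) (ε / 4) (by linarith)
  filter_upwards [h1, hC'] with X hX hX'
  have g1 := mean_phiE (A X) g φ hφ hB K
  have g3 : B * (mean (A X) fun D => (2 : ℝ) ^ ((m + 1) * g D)) / 2 ^ K ≤ B * C' / 2 ^ K :=
    div_le_div_of_nonneg_right (mul_le_mul_of_nonneg_left hX' hB) (by positivity)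
  have g4 := g1.trans g3
  rw [abs_le] at g4
  rw [Real.dist_eq, abs_lt] at hX hK1 ⊢
  constructor
  · linarith [hX.1, hX.2, hK1.1, hK1.2, g4.1, g4.2]
  · linarith [hX.1, hX.2, hK1.1, hK1.2, g4.1, g4.2]

/-- the tail -/
theorem tail_of_mean {A : Finset ℕ} {g : ℕ → ℕ} {m : ℕ} {C : ℝ}
    (h : (mean A fun D => (2 : ℝ) ^ (m * g D)) ≤ C) (hC : 0 ≤ C) (R : ℕ) :
    ((A.filter fun D => R ≤ g D).card : ℝ) * 2 ^ (m * R) ≤ C * (A.card : ℝ) := by
  have h1 : ((A.filter fun D => R ≤ g D).card : ℝ) * 2 ^ (m * R) ≤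
      ∑ D ∈ A, (2 : ℝ) ^ (m * g D) := by
    rw [← nsmul_eq_mul, ← Finset.sum_const]
    refine le_trans (Finset.sum_le_sum fun D hD => ?_)
      (Finset.sum_le_sum_of_subset_of_nonneg (Finset.filter_subset (fun D => R ≤ g D) A)
        fun _ _ _ => by positivity)
    exact pow_le_pow_right₀ (by norm_num) (Nat.mul_le_mul_left _ (Finset.mem_filter.1 hD).2)
  refine h1.trans ?_
  rcases Nat.eq_zero_or_pos A.card with h0 | h0
  · rw [Finset.card_eq_zero.1 h0]
    simp
  · unfold mean at h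
    rwa [div_le_iff₀ (by exact_mod_cast h0)] at h

/-! ### the moments of the limit law -/

/-- **the exponential moments of the limit law** -/
theorem exp_moment (h1 : HasSum ck 1) (r : ℕ) :
    HasSum (fun k : ℕ => (2 : ℝ) ^ (r * k) * ck k) (∏ i ∈ range r, (1 + (2 : ℝ) ^ i)) := by
  induction r with
  | zero =>
    simpa using h1
  | succ r ih =>
    set g : ℕ → ℝ := fun k => (2 : ℝ) ^ (r * k) * ((2 : ℝ) ^ k - 1) * ck k with hg
    have h2 : HasSum (fun k : ℕ => g (k + 1)) (2 ^ r * ∏ i ∈ range r, (1 + (2 : ℝ) ^ i)) := by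
      have e : (fun k : ℕ => g (k + 1)) = fun k => (2 : ℝ) ^ r * ((2 : ℝ) ^ (r * k) * ck k) := by
        funext k
        have h3 : (0 : ℝ) < 2 ^ (k + 1) - 1 := by
          have : (1 : ℝ) < 2 ^ (k + 1) := one_lt_pow₀ (by norm_num) (by omega)
          linarith
        simp only [hg]
        rw [ck_succ, mul_assoc, mul_div_cancel₀ _ h3.ne', mul_add, mul_one, pow_add]
        ring
      rw [e]
      exact ih.mul_left _
    have h4 : HasSum g (2 ^ r * ∏ i ∈ range r, (1 + (2 : ℝ) ^ i)) := by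
      have h5 := (hasSum_nat_add_iff (f := g) 1).1 h2
      have h6 : ∑ i ∈ range 1, g i = 0 := by
        simp [hg]
      rwa [h6, add_zero] at h5
    have h7 := h4.add ih
    rw [Finset.prod_range_succ]
    have e2 : (fun k : ℕ => (2 : ℝ) ^ ((r + 1) * k) * ck k) =
        fun k => g k + (2 : ℝ) ^ (r * k) * ck k := by
      funext k
      simp only [hg]
      rw [add_mul, one_mul, pow_add]
      ring
    rw [e2]
    have e3 : (∏ i ∈ range r, (1 + (2 : ℝ) ^ i)) * (1 + 2 ^ r) =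
        2 ^ r * ∏ i ∈ range r, (1 + (2 : ℝ) ^ i) + ∏ i ∈ range r, (1 + (2 : ℝ) ^ i) := by ring
    rw [e3]
    exact h7

/-! ### the corank over the class -/

/-- all exponential moments of the corank are bounded -/
def S_EXP : Prop := ∀ (G : Cfg) (f : ℕ → ZMod 2) (r : ℕ), Ok G → ∃ C : ℝ, 0 ≤ C ∧
  ∀ᶠ X : ℕ in atTop, ∑ S ∈ SS G X, (nk G f S : ℝ) ^ r ≤ C * ((SS G X).card : ℝ)

theorem exp_AX (hE : S_EXP) (G : Cfg) (f : ℕ → ZMod 2) (hO : Ok G) (r : ℕ) : ∃ C : ℝ, 0 ≤ C ∧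
    ∀ᶠ X : ℕ in atTop, (mean (AX G X) fun D => (2 : ℝ) ^ (r * kd G f D.primeFactors)) ≤ C := by
  obtain ⟨C, hC, h⟩ := hE G f r hO
  refine ⟨C, hC, ?_⟩
  filter_upwards [h] with X hX
  have e1 : ∑ D ∈ AX G X, (2 : ℝ) ^ (r * kd G f D.primeFactors) =
      ∑ S ∈ SS G X, (2 : ℝ) ^ (r * kd G f S) := by
    have h1 := sum_eq_of_card (AX G X) (SS G X) (fun D => 2 ^ (r * kd G f D.primeFactors))
      (fun S => 2 ^ (r * kd G f S)) (fun n => by
        have h5 := Pool.Agent.U643.GD.card_eq G X fun S => 2 ^ (r * kd G f S) = n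
        refine Eq.trans ?_ (h5.trans (congrArg Finset.card
          (Finset.ext fun S => by simp only [Finset.mem_filter])))
        unfold AX
        refine congrArg Finset.card (Finset.ext fun D => ?_)
        simp only [Finset.mem_filter, and_assoc])
    push_cast at h1
    exact h1
  unfold mean
  rw [e1, AX_card]
  rcases Nat.eq_zero_or_pos (SS G X).card with h0 | h0
  · rw [h0]
    simpa using hC
  · rw [div_le_iff₀ (by exact_mod_cast h0)]
    refine (Finset.sum_le_sum fun S _ => ?_).trans hX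
    rw [mul_comm, pow_mul]
    refine pow_le_pow_left₀ (by positivity) ?_ r
    exact_mod_cast pow_kd_le G f S

variable {a b m M : ℤ}

/-- **functions of exponential growth of the corank of the twist by `m`** -/
theorem phiE_class (hE : S_EXP) (nb : ¬ IsSquare b) (nc : ¬ IsSquare (a ^ 2 - 4 * b)) (hM : M ≠ 0)
    (h : m ∣ M) {φ : ℕ → ℝ} {B : ℝ} {n : ℕ} (hφ : ∀ k : ℕ, |φ k| ≤ B * 2 ^ (n * k)) :
    (Summable fun k : ℕ => φ k * ck k) ∧
    Tendsto (fun X : ℕ => mean (CX (a * M) (b * M ^ 2) X) fun D =>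
      φ (cork (a * m) (b * m ^ 2) D)) atTop (nhds (∑' k : ℕ, φ k * ck k)) := by
  have hb : b ≠ 0 := by
    rintro rfl
    exact nb ⟨0, by norm_num⟩
  have hc : a ^ 2 - 4 * b ≠ 0 := by
    intro h
    exact nc ⟨0, by rw [h]; norm_num⟩
  obtain ⟨g1, g2⟩ := Pool.Agent.U79.TF.gc_ne hb hc hM
  have nb' : ¬ IsSquare (b * M ^ 2) := fun h => nb (Pool.Agent.U79.TF.sq_cancel hM h)
  have nc' : ¬ IsSquare ((a * M) ^ 2 - 4 * (b * M ^ 2)) := by
    intro h
    refine nc (Pool.Agent.U79.TF.sq_cancel hM ?_)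
    have e : (a ^ 2 - 4 * b) * M ^ 2 = (a * M) ^ 2 - 4 * (b * M ^ 2) := by ring
    rw [e]
    exact h
  obtain ⟨hok, -, -, hcl⟩ := Pool.Agent.U643.GE.t_CFG (a * M) (b * M ^ 2) g1 g2 nb' nc'
  set G := Pool.Agent.U115.GE.cfg (a * M) (b * M ^ 2) with hG
  set f := Pool.Agent.U115.GE.thetaG (a * m) (b * m ^ 2) with hf
  have hA : ∀ X, CX (a * M) (b * M ^ 2) X = AX G X := fun X =>
    Finset.filter_congr fun D _ => hcl D
  have key : ∀ X, ∀ D ∈ CX (a * M) (b * M ^ 2) X,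
      kd G f D.primeFactors = cork (a * m) (b * m ^ 2) D := by
    intro X D hD
    obtain ⟨-, hres, -, -⟩ := Pool.Agent.U643.GE.t_CFG (a * M) (b * M ^ 2) g1 g2 nb' nc'
    have hD' := (Finset.mem_filter.1 hD).2
    refine (kd_iff G f _ _).1 ?_
    rw [Pool.Agent.U115.GE.gdK_matF, Pool.Agent.U79.TF.cork_matF, Pool.Agent.U79.TF.spl_eq h hD',
      Pool.Agent.U79.TF.ine_eq h hD']
    have e1 : (D.primeFactors.filter fun p => Pool.Agent.U115.GD.Hc G p) =
        Pool.Agent.U115.GE.spl (a * M) (b * M ^ 2) D :=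
      Finset.filter_congr fun p _ => (hres p).symm
    have e2 : (D.primeFactors.filter fun p => ¬ Pool.Agent.U115.GD.Hc G p) =
        Pool.Agent.U115.GE.ine (a * M) (b * M ^ 2) D :=
      Finset.filter_congr fun p _ => not_congr (hres p).symm
    rw [e1, e2]
  obtain ⟨h1, h2⟩ := phi_tendstoE (A := AX G) (g := fun D => kd G f D.primeFactors)
    (fun k => law_AX G f hok k) (fun n => exp_AX hE G f hok n) hφ
  refine ⟨h1, h2.congr fun X => ?_⟩
  unfold mean
  rw [hA X]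
  congr 1
  refine Finset.sum_congr rfl fun D hD => ?_
  show φ (kd G f D.primeFactors) = φ (cork (a * m) (b * m ^ 2) D)
  rw [key X D (by rw [hA X]; exact hD)]

/-- the mean over the class for `M` -/
theorem phiE_class' (hE : S_EXP) (nb : ¬ IsSquare b) (nc : ¬ IsSquare (a ^ 2 - 4 * b)) (hM : M ≠ 0)
    {φ : ℕ → ℝ} {B : ℝ} {n : ℕ} (hφ : ∀ k : ℕ, |φ k| ≤ B * 2 ^ (n * k)) :
    (Summable fun k : ℕ => φ k * ck k) ∧
    Tendsto (fun X : ℕ => mean (CX (a * M) (b * M ^ 2) X) fun D =>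
      φ (cork a b D)) atTop (nhds (∑' k : ℕ, φ k * ck k)) := by
  have h := phiE_class (m := 1) hE nb nc hM (one_dvd M) hφ
  rwa [mul_one, one_pow, mul_one] at h

/-- **the exponential moments of the corank over the class** -/
theorem exp_class (hE : S_EXP) (nb : ¬ IsSquare b) (nc : ¬ IsSquare (a ^ 2 - 4 * b)) (hM : M ≠ 0)
    (r : ℕ) : Tendsto (fun X : ℕ => mean (CX (a * M) (b * M ^ 2) X) fun D =>
      (2 : ℝ) ^ (r * cork a b D)) atTop (nhds (∏ i ∈ range r, (1 + (2 : ℝ) ^ i))) := by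
  obtain ⟨-, h⟩ := phiE_class' (M := M) hE nb nc hM (φ := fun k => (2 : ℝ) ^ (r * k)) (B := 1)
    (n := r) (fun k => by rw [abs_of_pos (by positivity), one_mul])
  rwa [(exp_moment Pool.Agent.U388.GD.t_SUMK r).tsum_eq] at h

end Pool.Agent.U79.GX
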