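import Pool.Agent.U79.GX.LA2

/-!
# Project GX (helper79): GX-LA
-/

set_option autoImplicit false
set_option linter.unusedVariables false

open scoped Classical

namespace Pool.Agent.U79.GX

open Finset hiding ext
open Pool.Agent.Y703.CQ (prs ext)
open Pool.Agent.U79.MO (SolA card_rows z2)

section
variable {U J : Type} [Fintype U] [Fintype J]

/-- the space of the solutions -/
noncomputable def VS (U1 : Finset U) (J1 : Finset J) (A : U → U → ZMod 2) (B : U → J → ZMod 2)
    (C : J → U → ZMod 2) (R : J → J → ZMod 2) (f : U → ZMod 2) (g : J → ZMod 2) :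
    Submodule (ZMod 2) ((U → ZMod 2) × (J → ZMod 2)) where
  carrier := {z | SolA U1 J1 A B C R f g z}
  zero_mem' := by
    refine ⟨fun _ _ => rfl, fun _ _ => rfl, fun u _ => ?_, fun j _ => ?_⟩ <;> simp
  add_mem' := by
    rintro z w ⟨h1, h2, h3, h4⟩ ⟨k1, k2, k3, k4⟩
    refine ⟨fun u hu => ?_, fun l hl => ?_, fun u hu => ?_, fun j hj => ?_⟩
    · rw [Prod.fst_add, Pi.add_apply, h1 u hu, k1 u hu, add_zero]
    · rw [Prod.snd_add, Pi.add_apply, h2 l hl, k2 l hl, add_zero]
    · have h := congrArg₂ (· + ·) (h3 u hu) (k3 u hu)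
      simp only [add_zero] at h
      rw [← h]
      simp only [Prod.fst_add, Prod.snd_add, Pi.add_apply, mul_add, Finset.sum_add_distrib]
      ring
    · have h := congrArg₂ (· + ·) (h4 j hj) (k4 j hj)
      simp only [add_zero] at h
      rw [← h]
      simp only [Prod.fst_add, Prod.snd_add, Pi.add_apply, mul_add, Finset.sum_add_distrib]
      ring
  smul_mem' := by
    intro c z hz
    rcases z2 c with rfl | rfl
    · rw [zero_smul]
      refine ⟨fun _ _ => rfl, fun _ _ => rfl, fun u _ => ?_, fun j _ => ?_⟩ <;> simp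
    · rw [one_smul]
      exact hz

/-- the space of the solutions of the large rows -/
noncomputable def V1 (K : Finset J) (R : J → J → ZMod 2) (g : J → ZMod 2) :
    Submodule (ZMod 2) (J → ZMod 2) where
  carrier := {y | (∀ l, l ∉ K → y l = 0) ∧ ∀ k ∈ K, ∑ l, R k l * (y l + y k) = g k * y k}
  zero_mem' := by
    refine ⟨fun _ _ => rfl, fun j _ => ?_⟩
    simp
  add_mem' := by
    rintro z w ⟨h1, h2⟩ ⟨k1, k2⟩
    refine ⟨fun l hl => ?_, fun j hj => ?_⟩
    · rw [Pi.add_apply, h1 l hl, k1 l hl, add_zero]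
    · rw [Pi.add_apply, mul_add, ← h2 j hj, ← k2 j hj]
      simp only [Pi.add_apply, mul_add, Finset.sum_add_distrib]
      ring
  smul_mem' := by
    intro c z hz
    rcases z2 c with rfl | rfl
    · rw [zero_smul]
      refine ⟨fun _ _ => rfl, fun j _ => ?_⟩
      simp
    · rw [one_smul]
      exact hz

theorem card_supp [LinearOrder J] (K : Finset J) :
    (univ.filter fun y : J → ZMod 2 => ∀ l, l ∉ K → y l = 0).card ≤ 2 ^ K.card := by
  have h : Fintype.card (K → ZMod 2) = 2 ^ K.card := by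
    rw [Fintype.card_fun, ZMod.card, Fintype.card_coe]
  rw [← h, ← Finset.card_univ]
  refine Finset.card_le_card_of_injOn (fun y (k : K) => y k)
    (fun _ _ => Finset.mem_coe.2 (Finset.mem_univ _)) ?_
  intro y hy y' hy' he
  have hy := (Finset.mem_filter.1 (Finset.mem_coe.1 hy)).2
  have hy' := (Finset.mem_filter.1 (Finset.mem_coe.1 hy')).2
  funext l
  by_cases h : l ∈ K
  · exact congrFun he ⟨l, h⟩
  · rw [hy l h, hy' l h]

theorem card_VS [LinearOrder J] (U1 : Finset U) (J1 : Finset J) (A : U → U → ZMod 2) (B : U → J → ZMod 2)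
    (C : J → U → ZMod 2) (R : J → J → ZMod 2) (f : U → ZMod 2) (g : J → ZMod 2) :
    (univ.filter fun z : (U → ZMod 2) × (J → ZMod 2) => SolA U1 J1 A B C R f g z).card =
      Nat.card (VS U1 J1 A B C R f g) := by
  rw [← Fintype.card_subtype, ← Nat.card_eq_fintype_card]
  rfl

/-- the lossy bound -/
theorem lossy [LinearOrder J] (U1 : Finset U) (J1 : Finset J) (l₀ : J) (A : U → U → ZMod 2) (B : U → J → ZMod 2)
    (C : J → U → ZMod 2) (R : J → J → ZMod 2) (f : U → ZMod 2) (g : J → ZMod 2) :
    (univ.filter fun z : (U → ZMod 2) × (J → ZMod 2) => SolA U1 J1 A B C R f g z).card ≤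
      2 ^ (Fintype.card U + 1) * Nat.card (V1 (J1.erase l₀) R fun k => g k + ∑ u, C k u) := by
  set n := Nat.card (V1 (J1.erase l₀) R fun k => g k + ∑ u, C k u) with hn
  have hc : (univ : Finset ((U → ZMod 2) × ZMod 2)).card = 2 ^ (Fintype.card U + 1) := by
    rw [Finset.card_univ, Fintype.card_prod, Fintype.card_fun, ZMod.card, pow_succ]
  rw [← hc, mul_comm]
  refine Finset.card_le_mul_card_image_of_maps_to (f := fun z => (z.1, z.2 l₀))
    (fun z _ => Finset.mem_univ _) n fun x _ => ?_
  set F := (univ.filter fun z : (U → ZMod 2) × (J → ZMod 2) => SolA U1 J1 A B C R f g z).filter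
    fun z => (z.1, z.2 l₀) = x with hF
  rcases F.eq_empty_or_nonempty with he | ⟨z₀, hz₀⟩
  · rw [he, Finset.card_empty]
    exact Nat.zero_le _
  have hz₀' := Finset.mem_filter.1 hz₀
  have hz₀1 := (Finset.mem_filter.1 hz₀'.1).2
  rw [hn, ← Fintype.card_coe, ← Nat.card_eq_fintype_card]
  refine Nat.card_le_card_of_injective (fun z => ⟨fun l => z.1.2 l + z₀.2 l, ?_⟩) ?_
  · have hz' := Finset.mem_filter.1 z.2
    have hz1 := (Finset.mem_filter.1 hz'.1).2
    have e1 : (z : (U → ZMod 2) × (J → ZMod 2)).1 = z₀.1 :=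
      (congrArg Prod.fst hz'.2).trans (congrArg Prod.fst hz₀'.2).symm
    have e2 : (z : (U → ZMod 2) × (J → ZMod 2)).2 l₀ = z₀.2 l₀ :=
      (congrArg Prod.snd hz'.2).trans (congrArg Prod.snd hz₀'.2).symm
    have h2 : ∀ x : ZMod 2, x + x = 0 := by decide
    refine ⟨fun l hl => ?_, fun k hk => ?_⟩
    · show (z : (U → ZMod 2) × (J → ZMod 2)).2 l + z₀.2 l = 0
      by_cases h : l = l₀
      · rw [h, e2, h2]
      · have h3 : l ∉ J1 := fun h4 => hl (Finset.mem_erase.2 ⟨h, h4⟩)
        rw [hz1.2.1 l h3, hz₀1.2.1 l h3, add_zero]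
    · have hk1 := (Finset.mem_erase.1 hk).2
      have h3 := hz1.2.2.2 k hk1
      have h4 := hz₀1.2.2.2 k hk1
      rw [e1] at h3
      have h5 := congrArg₂ (· + ·) h3 h4
      simp only [add_zero] at h5
      simp only [mul_add, add_mul, Finset.sum_add_distrib, Finset.sum_mul] at h5 ⊢
      have h6 : ∀ p q r s t q' r' s' t' : ZMod 2, p + q + (r + s) + t + (p + q' + (r' + s') + t') = 0 →
          r + r' + (s + s') = t + q + (t' + q') := by decide
      exact h6 _ _ _ _ _ _ _ _ _ h5
  · intro z z' h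
    have hz' := Finset.mem_filter.1 z.2
    have hz'' := Finset.mem_filter.1 z'.2
    have e1 : (z : (U → ZMod 2) × (J → ZMod 2)).1 = (z' : (U → ZMod 2) × (J → ZMod 2)).1 :=
      (congrArg Prod.fst hz'.2).trans (congrArg Prod.fst hz''.2).symm
    refine Subtype.ext (Prod.ext e1 (funext fun l => ?_))
    have h1 := congrFun (congrArg Subtype.val h) l
    exact add_right_cancel h1

end

theorem Cr_one (r : ℕ) : 1 ≤ Cr r := by
  unfold Cr
  have h1 : (1 : ℝ) ≤ 2 ^ r := one_le_pow₀ (by norm_num)
  have h2 : (1 : ℝ) ≤ 2 ^ (r ^ 2) := one_le_pow₀ (by norm_num)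
  nlinarith

theorem t_LA : S_LA := by
  intro r U J _ _ _ U1 J1 A B C f g
  constructor
  · rintro ⟨l₀, hl₀⟩ hBC hnd
    have hW0 := card_rows (U1 := U1) (J1 := J1) (B := B) (C := C) A f hBC hnd
    set W := univ.filter fun z : (U → ZMod 2) × (J → ZMod 2) => (∀ u, u ∉ U1 → z.1 u = 0) ∧
      (∀ l, l ∉ J1 → z.2 l = 0) ∧
      (∀ u ∈ U1, ∑ v, A u v * (z.1 v + z.1 u) + ∑ l, B u l * (z.2 l + z.1 u) + f u * z.1 u = 0)
      with hWd
    have hW : W.card ≤ 2 ^ J1.card := by
      refine le_trans ?_ hW0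
      refine Finset.card_le_card fun z hz => ?_
      have hz := (Finset.mem_filter.1 hz).2
      simp only [Finset.mem_filter, Finset.mem_univ, true_and]
      exact hz
    have h := la2 (J1 := J1) (K := J1) Finset.Subset.rfl hl₀ r
      (fun α => VS U1 J1 A B C (ext α) f g) W hW (LinearMap.snd (ZMod 2) (U → ZMod 2) (J → ZMod 2))
      (fun z k => ∑ u, C k u * (z.1 u + z.2 k) + g k * z.2 k)
      (by
        intro α z hz hz0
        have hy : z.2 = 0 := hz0
        have hx : z.1 = 0 := by
          by_contra hx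
          have hx2 : ∃ u, z.1 u ≠ 0 := by
            by_contra h
            push Not at h
            exact hx (funext h)
          obtain ⟨k, hk, hk2⟩ := hnd z.1 hz.1 hx2
          apply hk2
          have h2 := hz.2.2.2 k hk
          rw [hy] at h2
          simp only [Pi.zero_apply, add_zero, mul_zero, Finset.sum_const_zero] at h2
          rw [← h2]
          exact Finset.sum_congr rfl fun u _ => mul_comm _ _
        exact Prod.ext hx hy)
      (by
        intro α z hz
        exact Finset.mem_filter.2 ⟨Finset.mem_univ _, hz.1, hz.2.1, hz.2.2.1⟩)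
      (by
        intro α z hz
        refine ⟨hz.2.1, fun k hk => ?_⟩
        have h5 : ∀ p q r : ZMod 2, p + q + r = 0 → q = p + r := by decide
        exact h5 _ _ _ (hz.2.2.2 k hk))
    have h' : ((∑ α : prs J1 → ZMod 2, Nat.card (VS U1 J1 A B C (ext α) f g) ^ r : ℕ) : ℝ) ≤
        (((2 ^ r + 1) * 2 ^ (r ^ 2) * 2 ^ (prs J1).card : ℕ) : ℝ) := by exact_mod_cast h
    push_cast at h'
    refine le_trans (le_of_eq ?_) h'
    exact Finset.sum_congr rfl fun α _ => by rw [card_VS]
  · have hC := Cr_one r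
    have hN : Fintype.card (prs J1 → ZMod 2) = 2 ^ (prs J1).card := by
      rw [Fintype.card_fun, ZMod.card, Fintype.card_coe]
    rcases isEmpty_or_nonempty J with hJ | ⟨⟨l₀⟩⟩
    · have h1 : ∀ α : prs J1 → ZMod 2, ((univ.filter fun z : (U → ZMod 2) × (J → ZMod 2) =>
          SolA U1 J1 A B C (ext α) f g z).card : ℝ) ^ r ≤ (2 ^ (Fintype.card U + 1)) ^ r := by
        intro α
        refine pow_le_pow_left₀ (Nat.cast_nonneg _) ?_ r
        have h2 : (univ.filter fun z : (U → ZMod 2) × (J → ZMod 2) =>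
            SolA U1 J1 A B C (ext α) f g z).card ≤ 2 ^ (Fintype.card U + 1) := by
          refine (Finset.card_le_univ _).trans ?_
          rw [Fintype.card_prod, Fintype.card_fun, Fintype.card_fun, ZMod.card,
            Fintype.card_eq_zero (α := J), pow_zero, mul_one]
          exact Nat.pow_le_pow_right (by norm_num) (by omega)
        exact_mod_cast h2
      refine (Finset.sum_le_sum fun α _ => h1 α).trans ?_
      rw [Finset.sum_const, Finset.card_univ, hN, nsmul_eq_mul]
      push_cast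
      rw [mul_comm]
      refine mul_le_mul_of_nonneg_left ?_ (by positivity)
      have h3 : (0 : ℝ) ≤ 2 ^ (prs J1).card := by positivity
      nlinarith
    · have hl₀ : l₀ ∉ J1.erase l₀ := Finset.notMem_erase _ _
      have h := la2 (J1 := J1) (K := J1.erase l₀) (Finset.erase_subset _ _) hl₀ r
        (fun α => V1 (J1.erase l₀) (ext α) fun k => g k + ∑ u, C k u)
        (univ.filter fun y : J → ZMod 2 => ∀ l, l ∉ J1.erase l₀ → y l = 0) (card_supp _)
        LinearMap.id (fun y k => (g k + ∑ u, C k u) * y k)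
        (fun α z _ h => h)
        (fun α z hz => Finset.mem_filter.2 ⟨Finset.mem_univ _, hz.1⟩)
        (fun α z hz => hz)
      have h' : ((∑ α : prs J1 → ZMod 2, Nat.card (V1 (J1.erase l₀) (ext α)
          fun k => g k + ∑ u, C k u) ^ r : ℕ) : ℝ) ≤
          (((2 ^ r + 1) * 2 ^ (r ^ 2) * 2 ^ (prs J1).card : ℕ) : ℝ) := by exact_mod_cast h
      push_cast at h'
      have h1 : ∀ α : prs J1 → ZMod 2, ((univ.filter fun z : (U → ZMod 2) × (J → ZMod 2) =>
          SolA U1 J1 A B C (ext α) f g z).card : ℝ) ^ r ≤ (2 ^ (Fintype.card U + 1)) ^ r *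
          (Nat.card (V1 (J1.erase l₀) (ext α) fun k => g k + ∑ u, C k u) : ℝ) ^ r := by
        intro α
        rw [← mul_pow]
        refine pow_le_pow_left₀ (Nat.cast_nonneg _) ?_ r
        have h3 := lossy U1 J1 l₀ A B C (ext α) f g
        have h4 : ((univ.filter fun z : (U → ZMod 2) × (J → ZMod 2) =>
            SolA U1 J1 A B C (ext α) f g z).card : ℝ) ≤ ((2 ^ (Fintype.card U + 1) *
            Nat.card (V1 (J1.erase l₀) (ext α) fun k => g k + ∑ u, C k u) : ℕ) : ℝ) :=
          Nat.cast_le.2 h3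
        refine h4.trans (le_of_eq ?_)
        push_cast
        rfl
      refine (Finset.sum_le_sum fun α _ => h1 α).trans ?_
      rw [← Finset.mul_sum]
      exact mul_le_mul_of_nonneg_left h' (by positivity)

end Pool.Agent.U79.GX
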