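import Pool.Agent.U79.GX.ABS
import Pool.Agent.U79.GX.LA3
import Pool.Agent.U780.GX.BOX
import Pool.Agent.U411.GX.KEY
import Pool.Agent.U587.GX.ASY

/-!
# Project GX (helper79): the theorem on the exponential moments of the corank
-/

set_option autoImplicit false

open scoped Classical
open Finset Filter

namespace Pool.Agent.U79.GX

open Pool.Agent.U115.GD
open Pool.Agent.U79.MO

theorem t_KEYC : KEYC := Pool.Agent.U411.GX.t_KEY Pool.Agent.Y710.CQ.t_BIL
  Pool.Agent.Y356.CQ.t_EQ t_LA Pool.Agent.U780.GX.BOX.t_BOX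

theorem t_EXP : S_EXP := fun G f r hG => Pool.Agent.U587.GX.t_ASY t_KEYC
  Pool.Agent.U643.GD.t_CNT Pool.Agent.Y488.CX.t_SIE Pool.Agent.U158.GD.t_HAL
  Pool.Agent.U674.GD.t_BAD Pool.Agent.U998.GD.t_FEW Pool.Agent.U2.GD.t_MER Pool.Agent.U2.GD.t_CHE
  Pool.Agent.U234.GD.t_DA Pool.Agent.U2.GD.t_LOW G f r hG

end Pool.Agent.U79.GX
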