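import Pool.Agent.U79.GX.Stm

/-!
# Project GX (helper79): the rows of independent vectors
-/

set_option autoImplicit false
set_option linter.unusedVariables false

open scoped Classical

namespace Pool.Agent.U79.GX

open Finset hiding ext
open Pool.Agent.Y703.CQ (prs ext)
open Pool.Agent.U79.MO (ext_add z2)

/-- independent columns -/
theorem cols {J : Type} {r : ℕ} (y : Fin r → J → ZMod 2) (hli : LinearIndependent (ZMod 2) y) :
    ∃ p : Fin r → J, LinearIndependent (ZMod 2) (fun s => (fun i => y i (p s) : Fin r → ZMod 2)) := by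
  set col : J → (Fin r → ZMod 2) := fun l i => y i l with hcol
  have hspan : Submodule.span (ZMod 2) (Set.range col) = ⊤ := by
    by_contra h
    obtain ⟨φ, hφ, hφ2⟩ := Submodule.exists_dual_map_eq_bot_of_lt_top (lt_top_iff_ne_top.2 h)
      inferInstance
    apply hφ
    have hφ3 : ∀ l, φ (col l) = 0 := by
      intro l
      have h1 : φ (col l) ∈ (Submodule.span (ZMod 2) (Set.range col)).map φ :=
        Submodule.mem_map_of_mem (Submodule.subset_span ⟨l, rfl⟩)
      rw [hφ2] at h1
      exact (Submodule.mem_bot _).1 h1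
    have hexp : ∀ v : Fin r → ZMod 2, φ v = ∑ i, v i * φ (Pi.single i 1) := by
      intro v
      have h1 : v = ∑ i, v i • (Pi.single i (1 : ZMod 2) : Fin r → ZMod 2) := by
        funext j
        rw [Finset.sum_apply]
        simp [Pi.single_apply]
      conv_lhs => rw [h1]
      rw [map_sum]
      exact Finset.sum_congr rfl fun i _ => by rw [map_smul, smul_eq_mul]
    have h4 : ∑ i, φ (Pi.single i 1) • y i = 0 := by
      funext l
      have h5 := hφ3 l
      rw [hexp] at h5
      rw [Finset.sum_apply, Pi.zero_apply, ← h5]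
      refine Finset.sum_congr rfl fun i _ => ?_
      rw [Pi.smul_apply, smul_eq_mul, mul_comm]
    have h5 := Fintype.linearIndependent_iff.1 hli (fun i => φ (Pi.single i 1)) h4
    refine LinearMap.ext fun v => ?_
    rw [hexp]
    refine Finset.sum_eq_zero fun i _ => ?_
    rw [h5 i, mul_zero]
  obtain ⟨b, hb, hbs, hbl⟩ := exists_linearIndependent (ZMod 2) (Set.range col)
  rw [hspan] at hbs
  have hfin : Fintype b := Fintype.ofFinite b
  let B := Module.Basis.mk hbl (by rw [Subtype.range_coe, hbs])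
  have hcard : Fintype.card b = r := by
    have h1 := Module.finrank_eq_card_basis B
    rw [Module.finrank_fin_fun] at h1
    exact h1.symm
  let e : Fin r ≃ b := (Fintype.equivFinOfCardEq hcard).symm
  choose q hq using fun v : b => hb v.2
  refine ⟨fun s => q (e s), ?_⟩
  have h1 : (fun s => (fun i => y i (q (e s)) : Fin r → ZMod 2)) = fun s => ((e s : b) : Fin r → ZMod 2) := by
    funext s
    exact hq (e s)
  rw [h1]
  exact hbl.comp e e.injective

section
variable {J : Type} [Fintype J] [LinearOrder J] {J1 : Finset J}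

/-- the entries of the correction in the row `k` -/
noncomputable def Dd {r : ℕ} (l₀ : J) (p : Fin r → J) (b : Fin r → ZMod 2) (l : J) : ZMod 2 :=
  (∑ s, if l = p s then b s else 0) + if l = l₀ then ∑ s, b s else 0

/-- the correction -/
noncomputable def dlt {r : ℕ} (J1 R : Finset J) (l₀ : J) (p : Fin r → J)
    (β : R → Fin r → ZMod 2) : prs J1 → ZMod 2 := fun e =>
  (if h : e.1.1 ∈ R then Dd l₀ p (β ⟨e.1.1, h⟩) e.1.2 else 0) +
    if h : e.1.2 ∈ R then Dd l₀ p (β ⟨e.1.2, h⟩) e.1.1 else 0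

theorem Dd_zero {r : ℕ} {l₀ : J} {p : Fin r → J} (b : Fin r → ZMod 2) {l : J} (h1 : ∀ s, l ≠ p s)
    (h2 : l ≠ l₀) : Dd l₀ p b l = 0 := by
  unfold Dd
  rw [if_neg h2, add_zero]
  exact Finset.sum_eq_zero fun s _ => if_neg (h1 s)

theorem ext_dlt {r : ℕ} {R : Finset J} {l₀ : J} {p : Fin r → J} (hR : R ⊆ J1)
    (hp : ∀ s, p s ∉ R) (hl₀ : l₀ ∉ R) (β : R → Fin r → ZMod 2) (k : R) (l : J) :
    ext (dlt J1 R l₀ p β) (k : J) l = Dd l₀ p (β k) l := by
  have hk : (k : J) ∈ J1 := hR k.2
  have hRz : ∀ (b : Fin r → ZMod 2) (m : J), m ∈ R → Dd l₀ p b m = 0 := fun b m hm =>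
    Dd_zero b (fun s h => hp s (h ▸ hm)) fun h => hl₀ (h ▸ hm)
  unfold ext
  by_cases h1 : ((k : J), l) ∈ prs J1
  · rw [dif_pos h1]
    unfold dlt
    rw [dif_pos k.2]
    have : (if h : l ∈ R then Dd l₀ p (β ⟨l, h⟩) (k : J) else 0) = 0 := by
      split_ifs
      · exact hRz _ _ k.2
      · rfl
    show Dd l₀ p (β k) l + (if h : l ∈ R then Dd l₀ p (β ⟨l, h⟩) (k : J) else 0) = _
    rw [this, add_zero]
  · rw [dif_neg h1]
    by_cases h2 : l = k
    · rw [h2, hRz _ _ k.2]
      split_ifs with h3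
      · exact absurd rfl (Finset.mem_filter.1 h3.1).2.2.1
      · rfl
    · have h3 : (l, (k : J)) ∈ prs J1 := by
        have h4 : ¬ ((k : J) ∈ J1 ∧ l ≠ k ∧ (l ∈ J1 → (k : J) < l)) := fun h =>
          h1 (Finset.mem_filter.2 ⟨Finset.mem_univ _, h⟩)
        push Not at h4
        obtain ⟨h5, h6⟩ := h4 hk h2
        exact Finset.mem_filter.2 ⟨Finset.mem_univ _, h5, fun h => h2 h.symm,
          fun _ => lt_of_le_of_ne h6 h2⟩
      rw [dif_pos ⟨h3, hk⟩]
      unfold dlt
      have : (if h : l ∈ R then Dd l₀ p (β ⟨l, h⟩) (k : J) else 0) = 0 := by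
        split_ifs
        · exact hRz _ _ k.2
        · rfl
      show (if h : l ∈ R then Dd l₀ p (β ⟨l, h⟩) (k : J) else 0) +
        (if h : (k : J) ∈ R then Dd l₀ p (β ⟨k, h⟩) l else 0) = _
      rw [this, zero_add, dif_pos k.2]

/-- the row of the correction -/
theorem row_Dd {r : ℕ} {l₀ : J} (p : Fin r → J) (b : Fin r → ZMod 2) (y : J → ZMod 2) (c : ZMod 2)
    (h0 : y l₀ = 0) : ∑ l, Dd l₀ p b l * (y l + c) = ∑ s, b s * y (p s) := by
  unfold Dd
  simp only [add_mul, Finset.sum_mul, Finset.sum_add_distrib, ite_mul, zero_mul]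
  rw [Finset.sum_comm]
  have h1 : ∀ s ∈ (univ : Finset (Fin r)), ∑ l, (if l = p s then b s * (y l + c) else 0) =
      b s * y (p s) + b s * c := by
    intro s _
    rw [Finset.sum_ite_eq' univ, if_pos (Finset.mem_univ _), mul_add]
  rw [Finset.sum_congr rfl h1, Finset.sum_ite_eq' univ, if_pos (Finset.mem_univ _), h0, zero_add,
    Finset.sum_add_distrib, add_assoc]
  have h2 : ∀ x : ZMod 2, x + x = 0 := by decide
  rw [h2, add_zero]

/-- **the rows of independent vectors** -/
theorem la1 {K : Finset J} (hK : K ⊆ J1) {l₀ : J} (hl₀ : l₀ ∉ K) {r : ℕ}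
    (y : Fin r → J → ZMod 2) (g : Fin r → J → ZMod 2) (hy : ∀ i l, l ∉ K → y i l = 0)
    (hli : LinearIndependent (ZMod 2) y) :
    (univ.filter fun α : prs J1 → ZMod 2 => ∀ i, ∀ k ∈ K,
      ∑ l, ext α k l * (y i l + y i k) = g i k).card * 2 ^ (r * K.card) ≤
      2 ^ ((prs J1).card + r ^ 2) := by
  obtain ⟨p, hp⟩ := cols y hli
  have hpi : Function.Injective p := by
    intro s s' h
    refine hp.injective ?_
    show (fun i => y i (p s)) = fun i => y i (p s')
    rw [h]
  have hpK : ∀ s, p s ∈ K := by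
    intro s
    by_contra h
    exact hp.ne_zero s (funext fun i => hy i _ h)
  set P := univ.image p with hP
  have hPK : P ⊆ K := by
    intro l hl
    obtain ⟨s, -, rfl⟩ := Finset.mem_image.1 hl
    exact hpK s
  have hPc : P.card = r := by
    rw [hP, Finset.card_image_of_injective _ hpi, Finset.card_univ, Fintype.card_fin]
  set R := K \ P with hR
  have hRc : R.card + r = K.card := by
    rw [hR, ← hPc]
    exact Finset.card_sdiff_add_card_eq_card hPK
  have hRJ : R ⊆ J1 := Finset.sdiff_subset.trans hK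
  have hpR : ∀ s, p s ∉ R := fun s h =>
    (Finset.mem_sdiff.1 h).2 (Finset.mem_image_of_mem _ (Finset.mem_univ _))
  have hlR : l₀ ∉ R := fun h => hl₀ (Finset.mem_sdiff.1 h).1
  set Z := univ.filter fun α : prs J1 → ZMod 2 => ∀ i, ∀ k ∈ K,
      ∑ l, ext α k l * (y i l + y i k) = g i k with hZ
  have hinj : Set.InjOn (fun x : (prs J1 → ZMod 2) × (R → Fin r → ZMod 2) =>
      x.1 + dlt J1 R l₀ p x.2) (Z ×ˢ (univ : Finset (R → Fin r → ZMod 2)) : Finset _) := by
    have hrow : ∀ α ∈ Z, ∀ (β : R → Fin r → ZMod 2) (i : Fin r) (k : R),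
        ∑ l, ext (α + dlt J1 R l₀ p β) (k : J) l * (y i l + y i k) =
          g i k + ∑ s, β k s * y i (p s) := by
      intro α hα β i k
      have h1 : ∀ l ∈ (univ : Finset J), ext (α + dlt J1 R l₀ p β) (k : J) l * (y i l + y i k) =
          ext α (k : J) l * (y i l + y i k) + Dd l₀ p (β k) l * (y i l + y i k) := by
        intro l _
        rw [ext_add, ext_dlt hRJ hpR hlR, add_mul]
      rw [Finset.sum_congr rfl h1, Finset.sum_add_distrib,
        (Finset.mem_filter.1 hα).2 i k (Finset.mem_sdiff.1 k.2).1, row_Dd p _ _ _ (hy i l₀ hl₀)]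
    rintro ⟨α, β⟩ hx ⟨α', β'⟩ hx' h
    rw [Finset.mem_coe, Finset.mem_product] at hx hx'
    have h : α + dlt J1 R l₀ p β = α' + dlt J1 R l₀ p β' := h
    have hβ : β = β' := by
      funext k
      have h1 : ∑ s, (β k s - β' k s) • (fun i => y i (p s) : Fin r → ZMod 2) = 0 := by
        funext i
        have h2 := hrow α hx.1 β i k
        rw [h, hrow α' hx'.1 β' i k] at h2
        have h3 := add_left_cancel h2
        rw [Finset.sum_apply, Pi.zero_apply]
        simp only [Pi.smul_apply, smul_eq_mul, sub_mul]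
        rw [Finset.sum_sub_distrib, h3, sub_self]
      have h2 := Fintype.linearIndependent_iff.1 hp (fun s => β k s - β' k s) h1
      funext s
      exact sub_eq_zero.1 (h2 s)
    subst hβ
    rw [add_right_cancel h]
  have hc := Finset.card_le_card_of_injOn _ (fun _ _ => Finset.mem_coe.2 (Finset.mem_univ _)) hinj
  rw [Finset.card_product, Finset.card_univ, Finset.card_univ, Fintype.card_fun, Fintype.card_fun,
    Fintype.card_fun, ZMod.card, Fintype.card_fin, Fintype.card_coe, Fintype.card_coe] at hc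
  have e : r * K.card = r * R.card + r ^ 2 := by
    rw [← hRc]
    ring
  rw [e, pow_add, ← mul_assoc, pow_add]
  refine Nat.mul_le_mul_right _ ?_
  rw [pow_mul]
  exact hc

end

end Pool.Agent.U79.GX
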