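import Pool.Agent.U79.GX.LA1

/-!
# Project GX (helper79): moments from independent tuples
-/

set_option autoImplicit false
set_option linter.unusedVariables false

open scoped Classical

namespace Pool.Agent.U79.GX

open Finset hiding ext
open Pool.Agent.Y703.CQ (prs ext)

/-- the power of the number of elements of a space, by the independent tuples -/
theorem pow_card_le (V : Type) [AddCommGroup V] [Module (ZMod 2) V] [Finite V] (r : ℕ) :
    Nat.card V ^ r ≤ 2 ^ (r ^ 2) +
      2 ^ r * Nat.card {s : Fin r → V // LinearIndependent (ZMod 2) s} := by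
  have hfd : Module.Finite (ZMod 2) V := Module.Finite.of_finite
  set n := Module.finrank (ZMod 2) V with hn
  have hV : Nat.card V = 2 ^ n := by
    rw [Module.natCard_eq_pow_finrank (K := ZMod 2) (V := V), Nat.card_zmod]
  rcases le_or_gt r n with h | h
  · have h1 := card_linearIndependent (K := ZMod 2) (V := V) h
    simp only [ZMod.card] at h1
    rw [h1, hV]
    have h2 : (2 ^ n) ^ r ≤ 2 ^ r * ∏ i : Fin r, (2 ^ n - 2 ^ i.val) := by
      have h3 : (2 ^ n) ^ r = ∏ i : Fin r, 2 ^ n := by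
        rw [Finset.prod_const, Finset.card_univ, Fintype.card_fin]
      have h4 : 2 ^ r = ∏ i : Fin r, 2 := by
        rw [Finset.prod_const, Finset.card_univ, Fintype.card_fin]
      rw [h3, h4, ← Finset.prod_mul_distrib]
      refine Finset.prod_le_prod' fun i _ => ?_
      have h5 : 2 ^ (i : ℕ) * 2 ≤ 2 ^ n := by
        rw [← pow_succ]
        exact Nat.pow_le_pow_right (by norm_num) (by omega)
      omega
    exact h2.trans (Nat.le_add_left _ _)
  · rw [hV, ← pow_mul]
    have : 2 ^ (n * r) ≤ 2 ^ (r ^ 2) := Nat.pow_le_pow_right (by norm_num) (by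
      rw [sq]
      exact Nat.mul_le_mul_right _ h.le)
    omega

/-- **moments of the number of elements of random spaces** -/
theorem la2 {M J : Type} [AddCommGroup M] [Module (ZMod 2) M] [Fintype M] [Fintype J]
    [LinearOrder J] {J1 K : Finset J} (hK : K ⊆ J1) {l₀ : J} (hl₀ : l₀ ∉ K) (r : ℕ)
    (V : (prs J1 → ZMod 2) → Submodule (ZMod 2) M) (W : Finset M) (hW : W.card ≤ 2 ^ K.card)
    (φ : M →ₗ[ZMod 2] (J → ZMod 2)) (h : M → J → ZMod 2)
    (h0 : ∀ α, ∀ z ∈ V α, φ z = 0 → z = 0) (hVW : ∀ α, ∀ z ∈ V α, z ∈ W)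
    (hrow : ∀ α, ∀ z ∈ V α, (∀ l, l ∉ K → φ z l = 0) ∧
      ∀ k ∈ K, ∑ l, ext α k l * (φ z l + φ z k) = h z k) :
    ∑ α, Nat.card (V α) ^ r ≤ (2 ^ r + 1) * 2 ^ (r ^ 2) * 2 ^ (prs J1).card := by
  set T : Finset (Fin r → M) := univ.filter fun z => (∀ i, z i ∈ W) ∧
    (∀ i l, l ∉ K → φ (z i) l = 0) ∧ LinearIndependent (ZMod 2) (fun i => φ (z i)) with hT
  have hTc : T.card ≤ 2 ^ (r * K.card) := by
    have h1 : T ⊆ Fintype.piFinset fun _ : Fin r => W := by
      intro z hz
      exact Fintype.mem_piFinset.2 (Finset.mem_filter.1 hz).2.1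
    refine (Finset.card_le_card h1).trans ?_
    rw [Fintype.card_piFinset, Finset.prod_const, Finset.card_univ, Fintype.card_fin, mul_comm,
      pow_mul]
    exact Nat.pow_le_pow_left hW r
  have h1 : ∀ α, Nat.card {s : Fin r → V α // LinearIndependent (ZMod 2) s} ≤
      (T.filter fun z => ∀ i, z i ∈ V α).card := by
    intro α
    rw [← Fintype.card_coe, ← Nat.card_eq_fintype_card]
    refine Nat.card_le_card_of_injective (fun s => ⟨fun i => (s.1 i : M), ?_⟩) ?_
    · rw [Finset.mem_filter, hT, Finset.mem_filter]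
      refine ⟨⟨Finset.mem_univ _, fun i => hVW α _ (s.1 i).2,
        fun i => (hrow α _ (s.1 i).2).1, ?_⟩, fun i => (s.1 i).2⟩
      have h2 := s.2.map' (φ.comp (V α).subtype) (by
        rw [LinearMap.ker_eq_bot']
        intro z hz
        exact Subtype.ext (h0 α z z.2 hz))
      exact h2
    · intro s s' hs
      refine Subtype.ext (funext fun i => Subtype.ext ?_)
      exact congrFun (congrArg Subtype.val hs) i
  have h2 : ∑ α, (T.filter fun z => ∀ i, z i ∈ V α).card =
      ∑ z ∈ T, (univ.filter fun α => ∀ i, z i ∈ V α).card := by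
    simp only [Finset.card_filter]
    exact Finset.sum_comm
  have h3 : ∀ z ∈ T, (univ.filter fun α => ∀ i, z i ∈ V α).card * 2 ^ (r * K.card) ≤
      2 ^ ((prs J1).card + r ^ 2) := by
    intro z hz
    obtain ⟨-, -, hz2, hz3⟩ := Finset.mem_filter.1 hz
    refine le_trans (Nat.mul_le_mul_right _ (Finset.card_le_card ?_))
      (la1 hK hl₀ (fun i => φ (z i)) (fun i => h (z i)) hz2 hz3)
    intro α hα
    refine Finset.mem_filter.2 ⟨Finset.mem_univ _, fun i k hk => ?_⟩
    exact (hrow α _ ((Finset.mem_filter.1 hα).2 i)).2 k hk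
  have h4 : ∑ z ∈ T, (univ.filter fun α => ∀ i, z i ∈ V α).card ≤ 2 ^ ((prs J1).card + r ^ 2) := by
    have h5 : (∑ z ∈ T, (univ.filter fun α => ∀ i, z i ∈ V α).card) * 2 ^ (r * K.card) ≤
        2 ^ ((prs J1).card + r ^ 2) * 2 ^ (r * K.card) := by
      rw [Finset.sum_mul]
      refine (Finset.sum_le_sum h3).trans ?_
      rw [Finset.sum_const, smul_eq_mul, mul_comm]
      exact Nat.mul_le_mul_left _ hTc
    exact Nat.le_of_mul_le_mul_right h5 (by positivity)
  have h6 : ∑ α : prs J1 → ZMod 2, Nat.card {s : Fin r → V α // LinearIndependent (ZMod 2) s} ≤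
      2 ^ ((prs J1).card + r ^ 2) := by
    refine (Finset.sum_le_sum fun α _ => h1 α).trans ?_
    rw [h2]
    exact h4
  refine (Finset.sum_le_sum fun α _ => pow_card_le (V α) r).trans ?_
  rw [Finset.sum_add_distrib, Finset.sum_const, ← Finset.mul_sum, Finset.card_univ, smul_eq_mul,
    Fintype.card_fun, ZMod.card, Fintype.card_coe]
  have h7 := Nat.mul_le_mul_left (2 ^ r) h6
  refine (Nat.add_le_add_left h7 _).trans (le_of_eq ?_)
  rw [pow_add]
  ring

end Pool.Agent.U79.GX
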